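import Pool.Agent.Helper71.BM.Basic

set_option autoImplicit false

namespace Pool.Agent.Helper71.BM

open Finset ErdPos

variable {V : Type}

/-- the two legs of a list -/
def fin_lg (L : ℕ) (l : List V) : List V := l.take L ++ l.drop (l.length - L)

theorem fin_lg_length (L : ℕ) (l : List V) : (fin_lg L l).length ≤ 2 * L := by
  unfold fin_lg
  rw [List.length_append, List.length_take, List.length_drop]
  omega

theorem fin_mem (L : ℕ) (l : List V) (v : V) (hv : v ∈ l) : v ∈ fin_lg L l ∨ v ∈ core L l := by
  unfold fin_lg core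
  have h1 : v ∈ l.take L ++ l.drop L := by rw [List.take_append_drop]; exact hv
  rcases List.mem_append.1 h1 with h | h
  · left; exact List.mem_append_left _ h
  · have h2 : v ∈ (l.drop L).take (l.length - 2 * L) ++ (l.drop L).drop (l.length - 2 * L) := by
      rw [List.take_append_drop]; exact h
    rcases List.mem_append.1 h2 with h | h
    · right; exact h
    · left
      apply List.mem_append_right
      rw [List.drop_drop] at h
      have h3 : L + (l.length - 2 * L) = (l.length - L) + (L + (l.length - 2 * L) - (l.length - L)) := by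
        omega
      rw [h3, ← List.drop_drop] at h
      exact List.mem_of_mem_drop h

theorem fin_flat_length (L : ℕ) (P : List (List V)) :
    (P.map (fin_lg L)).flatten.length ≤ P.length * (2 * L) := by
  induction P with
  | nil => simp
  | cons l P ih =>
    rw [List.map_cons, List.flatten_cons, List.length_append, List.length_cons]
    have := fin_lg_length L l
    have e : (P.length + 1) * (2 * L) = P.length * (2 * L) + 2 * L := by ring
    omega

theorem st_FIN (h1 : ST_OPP) (h2 : ST_CLO) (h3 : ST_HAVC) : ST_FIN := by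
  classical
  intro V _ _ G k e K q N w W t hC s lam Lam E1 E2 Y m hP P hO S hS
  obtain ⟨o1, o2, o3, -, -⟩ := h1 V G k e K q N w W t hC s lam Lam E1 E2 Y m hP P hO
  have hS' : S.card ≤ N := by omega
  obtain ⟨i, hi, hti⟩ := hC.hub.ctl S hS'
  have hH := h3 V G k K hC.nu hC.hit
  set Lg : Finset V := (P.map (fin_lg Lam)).flatten.toFinset with hLg
  set X : Finset V := (S ∪ W) ∪ Lg with hX
  have hLgc : Lg.card ≤ 2 * s * Lam := by
    refine (List.toFinset_card_le _).trans ((fin_flat_length Lam P).trans ?_)
    calc P.length * (2 * Lam) ≤ s * (2 * Lam) := Nat.mul_le_mul_right _ o2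
      _ = 2 * s * Lam := by ring
  have hXc : X.card ≤ K := by
    have a1 : X.card ≤ (S ∪ W).card + Lg.card := card_union_le _ _
    have a2 : (S ∪ W).card ≤ S.card + W.card := card_union_le _ _
    have a3 := hC.wc
    have a4 := hP.hK
    omega
  have hB := hH.isBt hXc
  obtain ⟨M, hM, hMs⟩ := hB.2.2.1
  have hsub : bt G (FL G k) univ X ⊆ bt G (FL G k) univ (S ∪ W) :=
    bt_anti hH subset_union_left hXc
  have hPne : P ≠ [] := by
    intro h
    rw [h] at o1
    simp at o1
  have h3k := hP.k3
  obtain ⟨z, hz, hz1, hz2⟩ := h2 V G (FL G k) q N W t hC.hub P hO.1.1 hPne (by omega)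
  have hzk : k ≤ z.length := by
    have hnd : P.flatten.Nodup := hO.1.1.1
    have b1 : P.flatten.toFinset.card = P.flatten.length := List.toFinset_card_of_nodup hnd
    have b2 : P.flatten.toFinset ⊆ z.toFinset := by
      intro v hv
      rw [List.mem_toFinset] at hv ⊢
      exact hz1 v hv
    have b3 := card_le_card b2
    rw [hz.card] at b3
    omega
  obtain ⟨u, hu⟩ := hC.nu M z.toFinset hM (hz.FL hzk)
  rw [mem_inter, List.mem_toFinset] at hu
  obtain ⟨huM, huz⟩ := hu
  have huX : u ∈ bt G (FL G k) univ X := hMs huM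
  have huX' : u ∉ X := (mem_sdiff.1 (hB.1 huX)).2
  have huSW : u ∉ S ∪ W := fun h => huX' (mem_union_left _ h)
  have huL : u ∉ Lg := fun h => huX' (mem_union_right _ h)
  have huP : u ∈ P.flatten := by
    rcases hz2 u huz with h | h
    · exact h
    · exact absurd (mem_union_right _ h) huSW
  obtain ⟨l, hl, hul⟩ := List.mem_flatten.1 huP
  have huU : u ∈ Ucore Lam P := by
    rcases fin_mem Lam l u hul with h | h
    · exfalso
      apply huL
      rw [hLg, List.mem_toFinset]
      exact List.mem_flatten.2 ⟨fin_lg Lam l, List.mem_map_of_mem hl, h⟩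
    · unfold Ucore
      rw [List.mem_toFinset]
      exact List.mem_flatten.2 ⟨core Lam l, List.mem_map_of_mem hl, h⟩
  have hSWc : (S ∪ W).card ≤ K := (card_le_card subset_union_left).trans hXc
  have hB' := hH.isBt hSWc
  obtain ⟨p, hp, hps⟩ := exists_PL_of_conn hB'.2.1 (hsub huX) hti
  refine ⟨u, huU, t i, mem_Tm.2 ⟨i, hi, rfl⟩, p, hp, ?_⟩
  intro v hv
  have hv' := (mem_sdiff.1 (hB'.1 (hps v hv))).2
  refine ⟨mem_sdiff.2 ⟨mem_univ _, fun h => hv' (mem_union_right _ h)⟩,
    fun h => hv' (mem_union_left _ h)⟩

end Pool.Agent.Helper71.BM
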